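import Pool.Agent.Helper67.LM.Defs

/-!
# The polar volume of a convex body in a simplex (packet POLE of project LM)
-/

set_option autoImplicit false

open MeasureTheory Set
open scoped ENNReal
open Pool.Agent.Helper47.AQ

noncomputable section

namespace Pool.Agent.Helper56.LM

open Pool.Agent.Helper67.LM

variable {ι : Type} [Fintype ι] [DecidableEq ι]

/-- The linear involution belonging to the vertex `e_j`. -/
def Bl (j : ι) : (ι → ℝ) →ₗ[ℝ] (ι → ℝ) where
  toFun u := fun i => if i = j then - u j else u i - u j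
  map_add' u v := by
    funext i
    by_cases h : i = j
    · simp only [Pi.add_apply, h, if_true]; ring
    · simp only [Pi.add_apply, h, if_false]; ring
  map_smul' t u := by
    funext i
    by_cases h : i = j
    · simp only [Pi.smul_apply, smul_eq_mul, h, if_true, RingHom.id_apply]; ring
    · simp only [Pi.smul_apply, smul_eq_mul, h, if_false, RingHom.id_apply]; ring

theorem Bl_apply (j : ι) (u : ι → ℝ) (i : ι) :
    Bl j u i = if i = j then - u j else u i - u j := rfl

theorem Bl_Bl (j : ι) (u : ι → ℝ) : Bl j (Bl j u) = u := by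
  funext i
  by_cases h : i = j
  · subst h
    rw [Bl_apply, if_pos rfl, Bl_apply, if_pos rfl, neg_neg]
  · rw [Bl_apply, if_neg h, Bl_apply, if_neg h, Bl_apply, if_pos rfl]
    ring

theorem Bl_mp (j : ι) : MeasurePreserving (Bl j : (ι → ℝ) → (ι → ℝ)) volume volume := by
  have h1 : (Bl j).comp (Bl j) = LinearMap.id := LinearMap.ext fun u => Bl_Bl j u
  have h2 : LinearMap.det (Bl j) * LinearMap.det (Bl j) = 1 := by
    rw [← LinearMap.det_comp, h1, LinearMap.det_id]
  have h3 : LinearMap.det (Bl j) ≠ 0 := by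
    intro h
    rw [h, mul_zero] at h2
    exact zero_ne_one h2
  have h4 : |(LinearMap.det (Bl j))⁻¹| = 1 := by
    rcases mul_self_eq_one_iff.mp h2 with h | h <;> rw [h] <;> norm_num
  refine ⟨(Bl j).continuous_of_finiteDimensional.measurable, ?_⟩
  rw [Real.map_linearMap_volume_pi_eq_smul_volume_pi h3, h4, ENNReal.ofReal_one, one_smul]

/-- The involutions for all vertices. -/
def B : Option ι → (ι → ℝ) → (ι → ℝ)
  | none => id
  | some j => Bl j

theorem B_B (o : Option ι) (u : ι → ℝ) : B o (B o u) = u := by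
  cases o with
  | none => rfl
  | some j => exact Bl_Bl j u

theorem B_mp (o : Option ι) : MeasurePreserving (B o : (ι → ℝ) → (ι → ℝ)) volume volume := by
  cases o with
  | none => exact MeasurePreserving.id _
  | some j => exact Bl_mp j

/-- The constant `⟨u, co o 0⟩`. -/
def cc : Option ι → (ι → ℝ) → ℝ
  | none => fun _ => 0
  | some j => fun u => u j

theorem co_none (y : ι → ℝ) : co none y = y := by
  funext i
  show bc y (Equiv.swap none none (some i)) = y i
  rw [Equiv.swap_self]
  rfl

theorem co_some (j : ι) (y : ι → ℝ) (i : ι) :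
    co (some j) y i = if i = j then 1 - ∑ i, y i else y i := by
  show bc y (Equiv.swap none (some j) (some i)) = _
  by_cases h : i = j
  · rw [if_pos h, h, Equiv.swap_apply_right]
    rfl
  · rw [if_neg h, Equiv.swap_apply_of_ne_of_ne (by simp) (by simpa using h)]
    rfl

theorem inner_eq (o : Option ι) (u y : ι → ℝ) :
    ∑ i, u i * co o y i = ∑ i, B o u i * y i + cc o u := by
  cases o with
  | none =>
    rw [co_none]
    show _ = ∑ i, u i * y i + 0
    rw [add_zero]
  | some j =>
    show _ = ∑ i, Bl j u i * y i + u j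
    have e1 := Finset.add_sum_erase Finset.univ (fun i => u i * co (some j) y i) (Finset.mem_univ j)
    have e2 := Finset.add_sum_erase Finset.univ (fun i => Bl j u i * y i) (Finset.mem_univ j)
    have e3 := Finset.add_sum_erase Finset.univ y (Finset.mem_univ j)
    have e4 : ∑ i ∈ Finset.univ.erase j, u i * co (some j) y i =
        ∑ i ∈ Finset.univ.erase j, u i * y i :=
      Finset.sum_congr rfl fun i hi => by
        rw [co_some, if_neg (Finset.ne_of_mem_erase hi)]
    have e5 : ∑ i ∈ Finset.univ.erase j, Bl j u i * y i =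
        ∑ i ∈ Finset.univ.erase j, u i * y i - u j * ∑ i ∈ Finset.univ.erase j, y i := by
      rw [Finset.mul_sum, ← Finset.sum_sub_distrib]
      exact Finset.sum_congr rfl fun i hi => by
        rw [Bl_apply, if_neg (Finset.ne_of_mem_erase hi)]; ring
    rw [← e1, ← e2, e4, e5, co_some, if_pos rfl, Bl_apply, if_pos rfl, ← e3]
    ring

theorem co_mem (o : Option ι) {y : ι → ℝ} (hy : y ∈ T ι) : co o y ∈ T ι := by
  cases o with
  | none => rw [co_none]; exact hy
  | some j =>
    obtain ⟨h0, h1⟩ := hy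
    refine ⟨fun i => ?_, ?_⟩
    · rw [co_some]
      split_ifs
      · linarith
      · exact h0 i
    · have e1 := Finset.add_sum_erase Finset.univ (fun i => co (some j) y i) (Finset.mem_univ j)
      have e3 := Finset.add_sum_erase Finset.univ y (Finset.mem_univ j)
      have e4 : ∑ i ∈ Finset.univ.erase j, co (some j) y i = ∑ i ∈ Finset.univ.erase j, y i :=
        Finset.sum_congr rfl fun i hi => by
          rw [co_some, if_neg (Finset.ne_of_mem_erase hi)]
      rw [← e1, e4, co_some, if_pos rfl]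
      have := h0 j
      linarith

theorem T_body {K : Set (ι → ℝ)} (hK : IsBody K) (hT : K ⊆ T ι) : IsBody (T ι) where
  conv := by
    intro x hx y hy a b ha hb hab
    refine ⟨fun i => ?_, ?_⟩
    · have h1 := mul_nonneg ha (hx.1 i)
      have h2 := mul_nonneg hb (hy.1 i)
      show 0 ≤ a * x i + b * y i
      linarith
    · have h3 : ∑ i, (a • x + b • y) i = a * ∑ i, x i + b * ∑ i, y i := by
        rw [Finset.mul_sum, Finset.mul_sum, ← Finset.sum_add_distrib]
        rfl
      rw [h3]
      have h1 := mul_le_mul_of_nonneg_left hx.2 ha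
      have h2 := mul_le_mul_of_nonneg_left hy.2 hb
      linarith
  comp := by
    refine IsCompact.of_isClosed_subset (isCompact_Icc (a := (0 : ι → ℝ)) (b := 1)) ?_ ?_
    · have : T ι = (⋂ i, {x : ι → ℝ | 0 ≤ x i}) ∩ {x : ι → ℝ | ∑ i, x i ≤ 1} := by
        ext x
        simp [T]
      rw [this]
      refine IsClosed.inter (isClosed_iInter fun i =>
        isClosed_le continuous_const (continuous_apply i)) ?_
      exact isClosed_le (continuous_finsetSum _ fun i _ => continuous_apply i) continuous_const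
    · intro x hx
      refine ⟨fun i => hx.1 i, fun i => ?_⟩
      exact (Finset.single_le_sum (fun j _ => hx.1 j) (Finset.mem_univ i)).trans hx.2
  int := hK.int.mono (interior_mono hT)

theorem key {K : Set (ι → ℝ)} (hK : IsBody K) (hT : K ⊆ T ι) (o : Option ι) {u : ι → ℝ}
    (hu : u ∈ P ι) :
    wd (T ι) (B o u) ≤ ‖u‖ ∧ dl K o u ≤ hs (T ι) (-(B o u)) - hs K (-(B o u)) ∧
      0 ≤ dl K o u := by
  have hTb := T_body hK hT
  have hneg : ∀ y : ι → ℝ, ∑ i, (-(B o u)) i * y i = cc o u - ∑ i, u i * co o y i := by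
    intro y
    rw [inner_eq]
    have : ∑ i, (-(B o u)) i * y i = - ∑ i, B o u i * y i := by
      rw [← Finset.sum_neg_distrib]
      exact Finset.sum_congr rfl fun i _ => by rw [Pi.neg_apply, neg_mul]
    rw [this]
    ring
  have hnn : ∀ y ∈ T ι, 0 ≤ ∑ i, u i * co o y i := fun y hy =>
    Finset.sum_nonneg fun i _ => mul_nonneg (hu i).le ((co_mem o hy).1 i)
  have h1 : hs (T ι) (B o u) ≤ ‖u‖ - cc o u := by
    refine hTb.hs_le _ _ fun y hy => ?_
    have h2 := inner_eq o u y
    have h3 : ∑ i, u i * co o y i ≤ ‖u‖ := by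
      calc ∑ i, u i * co o y i ≤ ∑ i, ‖u‖ * co o y i :=
            Finset.sum_le_sum fun i _ => mul_le_mul_of_nonneg_right
              ((le_abs_self _).trans (norm_le_pi_norm u i)) ((co_mem o hy).1 i)
        _ = ‖u‖ * ∑ i, co o y i := by rw [Finset.mul_sum]
        _ ≤ ‖u‖ * 1 := mul_le_mul_of_nonneg_left (co_mem o hy).2 (norm_nonneg _)
        _ = ‖u‖ := mul_one _
    linarith
  have h2 : hs (T ι) (-(B o u)) ≤ cc o u := by
    refine hTb.hs_le _ _ fun y hy => ?_
    rw [hneg]
    have := hnn y hy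
    linarith
  have h3 : cc o u ≤ hs (T ι) (-(B o u)) := by
    cases o with
    | none =>
      have h4 : (0 : ι → ℝ) ∈ T ι := ⟨fun i => le_rfl, by simp⟩
      have h5 := hTb.le_hs (-(B none u)) h4
      refine le_trans (le_of_eq ?_) h5
      show (0 : ℝ) = _
      simp
    | some j =>
      have h4 : (Pi.single j (1 : ℝ) : ι → ℝ) ∈ T ι := by
        refine ⟨fun i => ?_, ?_⟩
        · by_cases h : i = j
          · rw [h, Pi.single_eq_same]; exact zero_le_one
          · rw [Pi.single_eq_of_ne h]
        · rw [Finset.sum_pi_single']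
          simp
      have h5 := hTb.le_hs (-(B (some j) u)) h4
      refine le_trans (le_of_eq ?_) h5
      rw [Finset.sum_eq_single j]
      · rw [Pi.single_eq_same, mul_one, Pi.neg_apply]
        show u j = - (Bl j u j)
        rw [Bl_apply, if_pos rfl, neg_neg]
      · intro b _ hb
        rw [Pi.single_eq_of_ne hb, mul_zero]
      · intro h
        exact absurd (Finset.mem_univ j) h
  have hbdd : BddBelow ((fun y : ι → ℝ => ∑ i, u i * co o y i) '' K) := by
    refine ⟨0, ?_⟩
    rintro _ ⟨y, hy, rfl⟩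
    exact hnn y (hT hy)
  have h4 : hs K (-(B o u)) ≤ cc o u - dl K o u := by
    refine hK.hs_le _ _ fun y hy => ?_
    rw [hneg]
    have h5 : dl K o u ≤ ∑ i, u i * co o y i := csInf_le hbdd ⟨y, hy, rfl⟩
    linarith
  refine ⟨?_, ?_, ?_⟩
  · unfold wd
    linarith
  · linarith
  · refine le_csInf (hK.nonempty.image _) ?_
    rintro _ ⟨y, hy, rfl⟩
    exact hnn y (hT hy)

theorem disj : Pairwise fun o o' : Option ι => Disjoint (B o ⁻¹' P ι) (B o' ⁻¹' P ι) := by
  have h1 : ∀ j : ι, Disjoint (B none ⁻¹' P ι) (B (some j) ⁻¹' P ι) := by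
    intro j
    rw [Set.disjoint_left]
    intro p hp hp'
    have h2 : 0 < p j := hp j
    have h3 : 0 < Bl j p j := hp' j
    rw [Bl_apply, if_pos rfl] at h3
    linarith
  intro o o' hoo
  cases o with
  | none =>
    cases o' with
    | none => exact absurd rfl hoo
    | some j => exact h1 j
  | some j =>
    cases o' with
    | none => exact (h1 j).symm
    | some k =>
      have hjk : j ≠ k := fun h => hoo (by rw [h])
      rw [Set.disjoint_left]
      intro p hp hp'
      have h2 : 0 < Bl j p k := hp k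
      have h3 : 0 < Bl k p j := hp' j
      rw [Bl_apply, if_neg hjk.symm] at h2
      rw [Bl_apply, if_neg hjk] at h3
      linarith

theorem pole [Nonempty ι] {K : Set (ι → ℝ)} (hK : IsBody K) (hT : K ⊆ T ι) :
    ((Fintype.card ι).factorial : ℝ≥0∞) * volume (dpol (T ι)) +
      2 * ∑ o : Option ι, ∫⁻ u in P ι, ENNReal.ofReal (Real.exp (-‖u‖) * dl K o u) ≤
    ((Fintype.card ι).factorial : ℝ≥0∞) * volume (dpol K) := by
  have hTb := T_body hK hT
  rw [← hTb.laplace, ← hK.laplace]
  set δ : (ι → ℝ) → ℝ := fun p => hs (T ι) p - hs K p with hδ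
  have hδ0 : ∀ p, 0 ≤ δ p := by
    intro p
    have : hs K p ≤ hs (T ι) p := hK.hs_le _ _ fun x hx => hTb.le_hs p (hT hx)
    show 0 ≤ hs (T ι) p - hs K p
    linarith
  have hδc : Continuous δ := hTb.hs_continuous.sub hK.hs_continuous
  set g : (ι → ℝ) → ℝ≥0∞ := fun p => ENNReal.ofReal (Real.exp (-(wd (T ι) p)) * δ (-p)) with hg
  have hgc : Measurable g :=
    (ENNReal.continuous_ofReal.comp ((Real.continuous_exp.comp hTb.wd_continuous.neg).mul
      (hδc.comp continuous_neg))).measurable
  have hec : Measurable fun p => ENNReal.ofReal (Real.exp (-(wd (T ι) p))) :=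
    (ENNReal.continuous_ofReal.comp (Real.continuous_exp.comp hTb.wd_continuous.neg)).measurable
  have hwn : ∀ p, wd (T ι) (-p) = wd (T ι) p := by
    intro p
    unfold wd
    rw [neg_neg]
    ring
  have hg' : ∫⁻ p, g (-p) = ∫⁻ p, g p :=
    (Measure.measurePreserving_neg (volume : Measure (ι → ℝ))).lintegral_comp hgc
  -- the pointwise estimate
  have hpt : ∀ p, ENNReal.ofReal (Real.exp (-(wd (T ι) p))) + (g (-p) + g p) ≤
      ENNReal.ofReal (Real.exp (-(wd K p))) := by
    intro p
    have e0 : 0 ≤ Real.exp (-(wd (T ι) p)) := (Real.exp_pos _).le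
    have e1 : g (-p) = ENNReal.ofReal (Real.exp (-(wd (T ι) p)) * δ p) := by
      show ENNReal.ofReal (Real.exp (-(wd (T ι) (-p))) * δ (- -p)) = _
      rw [hwn, neg_neg]
    rw [e1, ← ENNReal.ofReal_add (mul_nonneg e0 (hδ0 p)) (mul_nonneg e0 (hδ0 (-p))),
      ← ENNReal.ofReal_add e0 (add_nonneg (mul_nonneg e0 (hδ0 p)) (mul_nonneg e0 (hδ0 (-p))))]
    apply ENNReal.ofReal_le_ofReal
    have e2 : -(wd K p) = -(wd (T ι) p) + (δ p + δ (-p)) := by
      show -(hs K p + hs K (-p)) = -(hs (T ι) p + hs (T ι) (-p)) +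
        ((hs (T ι) p - hs K p) + (hs (T ι) (-p) - hs K (-p)))
      ring
    rw [e2, Real.exp_add]
    have e3 : δ p + δ (-p) + 1 ≤ Real.exp (δ p + δ (-p)) := Real.add_one_le_exp _
    calc Real.exp (-(wd (T ι) p)) + (Real.exp (-(wd (T ι) p)) * δ p +
          Real.exp (-(wd (T ι) p)) * δ (-p)) =
        Real.exp (-(wd (T ι) p)) * (δ p + δ (-p) + 1) := by ring
      _ ≤ _ := mul_le_mul_of_nonneg_left e3 e0
  have hsum : (∫⁻ p, ENNReal.ofReal (Real.exp (-(wd (T ι) p)))) + 2 * ∫⁻ p, g p ≤
      ∫⁻ p, ENNReal.ofReal (Real.exp (-(wd K p))) := by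
    refine le_trans (le_of_eq ?_) (lintegral_mono hpt)
    have hgn : Measurable fun p => g (-p) := hgc.comp measurable_neg
    rw [lintegral_add_left hec, lintegral_add_left hgn, hg', two_mul]
  refine le_trans (add_le_add le_rfl ?_) hsum
  refine mul_le_mul_right ?_ _
  have hm : ∀ o : Option ι, MeasurableSet (B o ⁻¹' P ι) := fun o =>
    (B_mp o).measurable measurableSet_P
  have hone : ∀ o : Option ι, ∫⁻ u in P ι, ENNReal.ofReal (Real.exp (-‖u‖) * dl K o u) ≤
      ∫⁻ p in B o ⁻¹' P ι, g p := by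
    intro o
    have h1 : ∫⁻ p in B o ⁻¹' P ι, g p = ∫⁻ u in P ι, g (B o u) := by
      rw [← lintegral_indicator (hm o), ← lintegral_indicator measurableSet_P,
        ← (B_mp o).lintegral_comp (hgc.indicator (hm o))]
      refine lintegral_congr fun u => ?_
      by_cases hu : u ∈ P ι
      · have hu' : B o u ∈ B o ⁻¹' P ι := by
          show B o (B o u) ∈ P ι
          rw [B_B]; exact hu
        rw [indicator_of_mem hu', indicator_of_mem hu]
      · have hu' : B o u ∉ B o ⁻¹' P ι := by
          show ¬ B o (B o u) ∈ P ι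
          rw [B_B]; exact hu
        rw [indicator_of_notMem hu', indicator_of_notMem hu]
    rw [h1]
    refine setLIntegral_mono' measurableSet_P fun u hu => ?_
    obtain ⟨k1, k2, k3⟩ := key hK hT o hu
    refine ENNReal.ofReal_le_ofReal ?_
    exact mul_le_mul (Real.exp_le_exp.mpr (neg_le_neg k1)) k2 k3 (Real.exp_pos _).le
  calc ∑ o : Option ι, ∫⁻ u in P ι, ENNReal.ofReal (Real.exp (-‖u‖) * dl K o u)
      ≤ ∑ o : Option ι, ∫⁻ p in B o ⁻¹' P ι, g p := Finset.sum_le_sum fun o _ => hone o
    _ = ∫⁻ p in ⋃ o ∈ (Finset.univ : Finset (Option ι)), B o ⁻¹' P ι, g p := by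
        rw [lintegral_biUnion_finset (fun o _ o' _ h => disj h) (fun o _ => hm o)]
    _ ≤ ∫⁻ p, g p := setLIntegral_le_lintegral _ _

end Pool.Agent.Helper56.LM
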